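import Pool.Agent.Lib.MP_1a91b9_nuY.TX.Defs
import Pool.Agent.Lib.MP_1a91b9_nuY.ZD.PsT

/-!
# Twisted base: the character `psT` and the package `AWK`
-/

set_option autoImplicit false

namespace Pool.Agent.Lib.MP_1a91b9_nuY.TX

variable [Pool.Agent.Lib.MP_1a91b9_nuT.CD]

open NumberField IsDedekindDomain WeierstrassCurve Module Pool.Agent.Lib.MP_1a91b9_nuT
open Pool.Agent.Lib.MP_1a91b9_nt
open Pool.Agent.Lib.MP_1a91b9_nuX Pool.Agent.Lib.MP_1a91b9_nuX.DB Pool.Agent.Lib.MP_1a91b9_nuX.DX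
open Pool.Agent.Lib.MP_1a91b9_nuG (up Ram)
open Pool.Agent.Lib.MP_1a91b9_nuX.TG Pool.Agent.Lib.MP_1a91b9_nuX.TC
open Pool.Agent.Lib.MP_1a91b9_nuT.CF (IsFr)
open Pool.Agent.Lib.MP_1a91b9_nuX.QW (span_le_gB)
open Pool.Agent.Lib.MP_1a91b9_nuY.TS

universe u

/-- the character `k` of the form of the curve with cocycle `θ` -/
noncomputable def kth {F G : Type u} [Field F] [Field G] [Algebra F G]
    (θ : Gal(G/F) →* (𝓞 K)ˣ) : Gal(G/F) → 𝓞 K := fun s => (((θ s)⁻¹ : (𝓞 K)ˣ) : 𝓞 K)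

theorem kap_kth {F G : Type u} [Field F] [Field G] [Algebra F G] (θ : Gal(G/F) →* (𝓞 K)ˣ) :
    Kap F G (kth θ) := by
  refine ⟨?_, fun s t => ?_, fun s => ?_⟩
  · rw [kth, map_one, inv_one, Units.val_one]
  · rw [kth, map_mul, mul_inv, Units.val_mul]
    rfl
  · have h1 := mul_cj ((((θ s)⁻¹ : (𝓞 K)ˣ)) : 𝓞 K)
    rw [kth, h1, Ideal.span_singleton_eq_top.2 ((θ s)⁻¹).isUnit, Ideal.absNorm_top, Nat.cast_one]

variable [HC]

section
variable {μ g : 𝓞 K} {F L : Type u} [Field F] [NumberField F] [Algebra K F]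
  [Field L] [NumberField L] [Algebra K L]
  [Algebra F L] [IsScalarTower K F L] [DecidableEq L] [IsGalois F L] {T : Pt L}
  {θ : Gal(L/F) →* (𝓞 K)ˣ}

omit [HC] [IsGalois F L] in
theorem val_g (w : HeightOneSpectrum (𝓞 L)) (hw : w.valuation L (algebraMap K L (g : K)) = 1) :
    up g F ∉ (w.under (𝓞 F)).asIdeal := by
  intro h
  have h1 : algebraMap (𝓞 F) (𝓞 L) (up g F) ∈ w.asIdeal := h
  have h2 : algebraMap (𝓞 F) (𝓞 L) (up g F) = up g L :=
    (IsScalarTower.algebraMap_apply (𝓞 K) (𝓞 F) (𝓞 L) g).symm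
  rw [h2, ← w.valuation_lt_one_iff_mem (K := L)] at h1
  exact absurd hw h1.ne

/-- the Frobenius automorphisms act on the twist through its Hecke character -/
theorem frK_psT (hT : AbT μ F T) (hg : gB μ ∣ g) : FrK F L (kth θ) g (psT F T g θ) := by
  intro w hw s hs
  have hv := val_g (F := F) w hw
  have hv' : ¬ Ideal.span {up g F} ≤ (w.under (𝓞 F)).asIdeal := fun h =>
    hv ((Ideal.span_singleton_le_iff_mem _).1 h)
  have h1 := art_fr hT (span_le_gB hg F) (w.under (𝓞 F)) hv' w s rfl fun x => by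
    rw [nrm_eq]
    exact hs x
  have hcop : IsCoprime (w.under (𝓞 F)).asIdeal (Ideal.span {up g F}) := by
    by_contra h
    exact hv' ((S4.le_iff_not_coprime _ _).2 h)
  rw [psT_of hcop, h1, mul_comm]
  rfl

/-- the field of the torsion point is unramified outside the modulus -/
theorem ur_psT (hT : AbT μ F T) (hg : gB μ ∣ g) (w : HeightOneSpectrum (𝓞 L))
    (hw : w.valuation L (algebraMap K L (g : K)) = 1) : w.asIdeal.ramificationIdx (𝓞 F) = 1 := by
  have hv := val_g (F := F) w hw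
  have h1 := hT.not_ram (w.under (𝓞 F)) fun h => hv
    ((w.under (𝓞 F)).asIdeal.mem_of_dvd (map_dvd (algebraMap (𝓞 K) (𝓞 F)) hg) h)
  by_contra hne
  exact h1 ⟨w, (MP_1a91b9_nuG.le_sq_iff rfl).mpr hne⟩

end

end Pool.Agent.Lib.MP_1a91b9_nuY.TX
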