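import Pool.Agent.Lib.MP_1a91b9_nuY.TS.Defs
import Pool.Agent.Lib.MP_1a91b9_nuY.AN.Up
import Pool.Agent.Lib.MP_1a91b9_nuW.DY.Top

/-!
# Twisted base: the towers over the base field

`ov F₀ Ψ`: the Hecke character over an extension of `F₀`. `TowF`: the towers over `F₀`. `Cmp`, `kr`: the compositum of an
extension of `F₀` with `G₀` and the restriction of the character of `Gal(G₀/F₀)`.
-/

set_option autoImplicit false

namespace Pool.Agent.Lib.MP_1a91b9_nuY.TX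

open NumberField IsDedekindDomain WeierstrassCurve Module Pool.Agent.Lib.MP_1a91b9_nuT
open Pool.Agent.Lib.MP_1a91b9_nuX Pool.Agent.Lib.MP_1a91b9_nuX.DB Pool.Agent.Lib.MP_1a91b9_nuX.DX
open Pool.Agent.Lib.MP_1a91b9_nuG (up Ram)
open Pool.Agent.Lib.MP_1a91b9_nuW.DY (Splt)
open Pool.Agent.Lib.MP_1a91b9_nuX.DS (UnrL)
open Pool.Agent.Lib.MP_1a91b9_nuY.TS

universe u

variable [CD]

/-- the Hecke character over an extension `F` of `F₀` -/
noncomputable abbrev ov (F₀ : Type*) [Field F₀] [NumberField F₀] {F : Type*} [Field F]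
    [NumberField F] [Algebra F₀ F] (Ψ : Ideal (𝓞 F₀) → 𝓞 K) : Ideal (𝓞 F) → 𝓞 K :=
  fun I => Ψ (Ideal.relNorm (𝓞 F₀) I)

/-- The towers over `F₀`: Galois extensions of degree `ℓ`, in which only places with `Ψ v - 1` prime to `ℓ` ramify, and
which ramify above `ℓ` only if `ℓ` splits in `K`. -/
inductive TowF (F₀ : Type u) [Field F₀] [NumberField F₀] (Ψ : Ideal (𝓞 F₀) → 𝓞 K) (ℓ : ℕ) :
    ∀ (F : Type u) [Field F] [NumberField F] [Algebra F₀ F], Prop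
  | base (F : Type u) [Field F] [NumberField F] [Algebra F₀ F]
      (h : Function.Bijective (algebraMap F₀ F)) : TowF F₀ Ψ ℓ F
  | step (F F' : Type u) [Field F] [NumberField F] [Algebra F₀ F] [Field F'] [NumberField F']
      [Algebra F₀ F'] [Algebra F F'] [IsScalarTower F₀ F F'] (hG : IsGalois F F')
      (hr : finrank F F' = ℓ)
      (hu : ∀ v : HeightOneSpectrum (𝓞 F), (ℓ : 𝓞 F) ∈ v.asIdeal → Ram F' v → Splt ℓ)
      (ha : ∀ v : HeightOneSpectrum (𝓞 F), Ram F' v →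
        IsCoprime (ov F₀ Ψ v.asIdeal - 1) (ℓ : 𝓞 K))
      (h : TowF F₀ Ψ ℓ F) : TowF F₀ Ψ ℓ F'

/-- The ramification condition over the base field. -/
def RamF (ℓ : ℕ) (F₀ F : Type*) [Field F₀] [NumberField F₀] (Ψ : Ideal (𝓞 F₀) → 𝓞 K)
    [Field F] [NumberField F] [Algebra F₀ F] : Prop :=
  ∀ v : HeightOneSpectrum (𝓞 F₀), Ram F v → ((ℓ : 𝓞 F₀) ∈ v.asIdeal → Splt ℓ) ∧
    IsCoprime (Ψ v.asIdeal - 1) (ℓ : 𝓞 K)

/-- `G` is the compositum of `F` and of `G₀` -/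
def Cmp (G₀ F G : Type*) [Field G₀] [Field F] [Field G] [Algebra G₀ G] [Algebra F G] : Prop :=
  IntermediateField.adjoin F (Set.range (algebraMap G₀ G)) = ⊤

section
variable {F₀ G₀ : Type u} [Field F₀] [Field G₀] [Algebra F₀ G₀] [IsGalois F₀ G₀]

/-- the restriction of the character `k` of `Gal(G₀/F₀)` to `Gal(G/F)` -/
noncomputable def kr (k : Gal(G₀/F₀) → 𝓞 K) (F G : Type u) [Field F] [Algebra F₀ F] [Field G]
    [Algebra F G] [Algebra F₀ G] [Algebra G₀ G] [IsScalarTower F₀ F G] [IsScalarTower F₀ G₀ G] :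
    Gal(G/F) → 𝓞 K :=
  fun s => k (rs G₀ (toF F₀ s))

end

/-- The property of the base field `F₀ ⊆ G₀`; `g` is the modulus of the Hecke character `Ψ`. -/
structure BaseY [HC] (g : 𝓞 K) (ℓ : ℕ) (F₀ G₀ : Type u) [Field F₀] [NumberField F₀]
    [Algebra K F₀] [Field G₀] [NumberField G₀] [Algebra K G₀] [Algebra F₀ G₀]
    [IsScalarTower K F₀ G₀] [IsGalois F₀ G₀] (k : Gal(G₀/F₀) → 𝓞 K)
    (Ψ : Ideal (𝓞 F₀) → 𝓞 K) : Prop where
  good : ¬ (ℓ : ℤ) ∣ CD.bad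
  hf : HF g F₀ Ψ
  fg : HC.f ∣ g
  gl : IsCoprime g (ℓ : 𝓞 K)
  e2 : ¬ ℓ ∣ 2 ^ finrank K F₀ - 1
  unr : UnrL ℓ F₀
  unit : UnitT ℓ F₀ Ψ
  aw : ∀ (ϖ : 𝓞 K) (q : ℕ), PD ϖ ℓ q → AWK F₀ G₀ k g ϖ ℓ Ψ

end Pool.Agent.Lib.MP_1a91b9_nuY.TX
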