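import Pool.Agent.Lib.MP_1a91b9_nuY.TX.One
import Pool.Agent.Lib.MP_1a91b9_nuX.TG.Iso

/-!
# Twisted base: the package `AWK` over the copies of the base field
-/

set_option autoImplicit false

namespace Pool.Agent.Lib.MP_1a91b9_nuY.TX

variable [Pool.Agent.Lib.MP_1a91b9_nuT.CD]

open NumberField IsDedekindDomain WeierstrassCurve Module Pool.Agent.Lib.MP_1a91b9_nuT
open Pool.Agent.Lib.MP_1a91b9_nuX Pool.Agent.Lib.MP_1a91b9_nuX.DB Pool.Agent.Lib.MP_1a91b9_nuX.DX
open Pool.Agent.Lib.MP_1a91b9_nuX.DS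
open Pool.Agent.Lib.MP_1a91b9_nuT.S5 (below mem_below exists_above below_below)
open Pool.Agent.Lib.MP_1a91b9_nuG (Ram)
open Pool.Agent.Lib.MP_1a91b9_nuX.TG (iso_galois iso_surj)
open Pool.Agent.Lib.MP_1a91b9_nuW.W Pool.Agent.Lib.MP_1a91b9_nuW.DS
open Pool.Agent.Lib.MP_1a91b9_nuY.TS

universe u

omit [CD] in
theorem under_under {N N' L : Type u} [Field N] [NumberField N] [Field N'] [NumberField N']
    [Field L] [NumberField L] [Algebra N N'] [Algebra N' L] [Algebra N L] [IsScalarTower N N' L]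
    (W : HeightOneSpectrum (𝓞 L)) : (W.under (𝓞 N')).under (𝓞 N) = W.under (𝓞 N) := by
  apply HeightOneSpectrum.ext
  ext x
  change algebraMap (𝓞 N') (𝓞 L) (algebraMap (𝓞 N) (𝓞 N') x) ∈ W.asIdeal ↔
    algebraMap (𝓞 N) (𝓞 L) x ∈ W.asIdeal
  have h1 : algebraMap (𝓞 N') (𝓞 L) (algebraMap (𝓞 N) (𝓞 N') x) = algebraMap (𝓞 N) (𝓞 L) x := by
    apply RingOfIntegers.ext
    exact (IsScalarTower.algebraMap_apply N N' L (x : N)).symm
  rw [h1]

/-- the ramification indices in a tower -/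
theorem ram_tower {N N' L : Type u} [Field N] [NumberField N] [Field N'] [NumberField N']
    [Field L] [NumberField L] [Algebra N N'] [Algebra N' L] [Algebra N L] [IsScalarTower N N' L]
    (W : HeightOneSpectrum (𝓞 L)) :
    W.asIdeal.ramificationIdx (𝓞 N) =
      W.asIdeal.ramificationIdx (𝓞 N') * (W.under (𝓞 N')).asIdeal.ramificationIdx (𝓞 N) := by
  obtain ⟨z, hz⟩ := exists_od_one (W.under (𝓞 N))
  have hu : (W.under (𝓞 N')).under (𝓞 N) = W.under (𝓞 N) := under_under W
  have h1 := od_map (k := N) W z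
  rw [hz, mul_one] at h1
  have h2 := od_map (k := N') W (algebraMap N N' z)
  have h3 := od_map (k := N) (W.under (𝓞 N')) z
  rw [hu, hz, mul_one] at h3
  rw [h3, ← IsScalarTower.algebraMap_apply N N' L z, h1] at h2
  exact_mod_cast h2

section
variable {F₀ F : Type u} [Field F₀] [NumberField F₀] [Field F] [NumberField F] [Algebra F₀ F]
  (hb : Function.Bijective (algebraMap F₀ F))
include hb

theorem bij_ram (w : HeightOneSpectrum (𝓞 F)) : w.asIdeal.ramificationIdx (𝓞 F₀) = 1 := by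
  have h := bij_not_ram hb (w.under (𝓞 F₀))
  by_contra hne
  exact h ⟨w, (MP_1a91b9_nuG.le_sq_iff rfl).mpr hne⟩

theorem bij_inertia (w : HeightOneSpectrum (𝓞 F)) : w.asIdeal.inertiaDeg (𝓞 F₀) = 1 := by
  have hG := bij_galois hb
  have h2 := (MP_1a91b9_nuT3.EF.ef_dvd (w.under (𝓞 F₀)) w rfl).1
  rwa [bij_finrank hb, Nat.dvd_one] at h2

theorem bij_od (w : HeightOneSpectrum (𝓞 F)) (a : F₀) :
    od w (algebraMap F₀ F a) = od (w.under (𝓞 F₀)) a := by
  rw [od_map, bij_ram hb, Nat.cast_one, one_mul]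

theorem bij_norm (w : HeightOneSpectrum (𝓞 F)) :
    Ideal.absNorm (w.under (𝓞 F₀)).asIdeal = Ideal.absNorm w.asIdeal := by
  have hwm : w.asIdeal.IsMaximal := w.isMaximal
  have hvm : (w.under (𝓞 F₀)).asIdeal.IsMaximal := (w.under (𝓞 F₀)).isMaximal
  have hlo : w.asIdeal.LiesOver (w.under (𝓞 F₀)).asIdeal := ⟨rfl⟩
  have h1 : Ideal.relNorm (𝓞 F₀) w.asIdeal = (w.under (𝓞 F₀)).asIdeal ^ _ :=
    Ideal.relNorm_eq_pow_of_isMaximal w.asIdeal (w.under (𝓞 F₀)).asIdeal
  rw [bij_inertia hb, pow_one] at h1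
  rw [← h1]
  exact Ideal.absNorm_relNorm (𝓞 F₀) (𝓞 F) w.asIdeal

end

section
variable {F₀ G₀ F G : Type u} [Field F₀] [NumberField F₀] [Algebra K F₀] [Field G₀]
  [NumberField G₀] [Algebra K G₀] [Algebra F₀ G₀] [IsScalarTower K F₀ G₀] [IsGalois F₀ G₀]
  [Field F] [NumberField F] [Algebra K F] [Field G] [NumberField G] [Algebra K G]
  [Algebra F₀ F] [Algebra F G] [Algebra F₀ G] [Algebra G₀ G] [IsScalarTower K F₀ F]
  [IsScalarTower K F G] [IsScalarTower K G₀ G] [IsScalarTower F₀ F G] [IsScalarTower F₀ G₀ G]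
  [IsGalois F G] {k : Gal(G₀/F₀) → 𝓞 K}

omit [IsGalois F G] [NumberField F] in
theorem kap_kr (h : Kap F₀ G₀ k) : Kap F G (kr k F G) := by
  have tK : IsScalarTower K F₀ G := IsScalarTower.of_algebraMap_eq fun x => by
    rw [IsScalarTower.algebraMap_apply K F G, IsScalarTower.algebraMap_apply K F₀ F,
      ← IsScalarTower.algebraMap_apply F₀ F G]
  refine ⟨?_, fun s t => ?_, fun s => h.nrm _⟩
  · have h1 : rs G₀ (toF F₀ (1 : Gal(G/F))) = 1 := by
      apply AlgEquiv.ext
      intro x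
      apply (algebraMap G₀ G).injective
      rw [rs_apply]
      rfl
    change k (rs G₀ (toF F₀ (1 : Gal(G/F)))) = 1
    rw [h1, h.one]
  · have h1 : rs G₀ (toF F₀ (s * t)) = rs G₀ (toF F₀ s) * rs G₀ (toF F₀ t) :=
      rs_mul (N := G₀) (toF F₀ s) (toF F₀ t)
    change k (rs G₀ (toF F₀ (s * t))) = k (rs G₀ (toF F₀ s)) * k (rs G₀ (toF F₀ t))
    rw [h1, h.mul]

variable [HC] {g ϖ : 𝓞 K} {ℓ q : ℕ} {Ψ : Ideal (𝓞 F₀) → 𝓞 K}

omit [HC] in
theorem cmp_bij (hb : Function.Bijective (algebraMap F₀ F)) (hC : Cmp G₀ F G) :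
    Function.Bijective (algebraMap G₀ G) := by
  refine ⟨(algebraMap G₀ G).injective, fun z => ?_⟩
  let A : IntermediateField F G := (algebraMap G₀ G).fieldRange.toIntermediateField fun x => by
    obtain ⟨y, rfl⟩ := hb.2 x
    exact ⟨algebraMap F₀ G₀ y, by
      rw [← IsScalarTower.algebraMap_apply, ← IsScalarTower.algebraMap_apply]⟩
  have hA : A = ⊤ := by
    rw [eq_top_iff, ← hC, IntermediateField.adjoin_le_iff]
    rintro _ ⟨y, rfl⟩
    exact ⟨y, rfl⟩
  have hz : z ∈ A := by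
    rw [hA]
    exact IntermediateField.mem_top
  exact hz

/-- **The package over a copy of the base field.** -/
theorem awk_copy (hΨ : HF g F₀ Ψ) (hb : Function.Bijective (algebraMap F₀ F)) (hC : Cmp G₀ F G)
    (A : AWK F₀ G₀ k g ϖ ℓ Ψ) : AWK F G (kr k F G) g ϖ ℓ (ov F₀ Ψ) := by
  have hc := cmp_bij hb hC
  have tK : IsScalarTower K F₀ G := IsScalarTower.of_algebraMap_eq fun x => by
    rw [IsScalarTower.algebraMap_apply K F G, IsScalarTower.algebraMap_apply K F₀ F,
      ← IsScalarTower.algebraMap_apply F₀ F G]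
  refine ⟨kap_kr A.kap, ?_, A.bl, A.bad, ?_, ?_, ?_, ?_, ?_, ?_, ?_⟩
  · have h1 := Module.finrank_mul_finrank F₀ F G
    have h2 := Module.finrank_mul_finrank F₀ G₀ G
    rw [bij_finrank hb, one_mul] at h1
    rw [bij_finrank hc, mul_one] at h2
    rw [h1, ← h2]
    exact A.deg
  · intro w hw
    have h1 : (w.under (𝓞 G₀)).valuation G₀ (algebraMap K G₀ (g : K)) = 1 := by
      rw [← val_map_eq, ← IsScalarTower.algebraMap_apply]
      exact hw
    have h2 := A.ur _ h1
    have h3 := ram_tower (N := F₀) (N' := G₀) w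
    rw [h2, bij_ram hc, one_mul] at h3
    have h4 := ram_tower (N := F₀) (N' := F) w
    rw [h3, bij_ram hb, mul_one] at h4
    exact h4.symm
  · intro w hw s hs
    have h1 : (w.under (𝓞 G₀)).valuation G₀ (algebraMap K G₀ (g : K)) = 1 := by
      rw [← val_map_eq, ← IsScalarTower.algebraMap_apply]
      exact hw
    have hun : (w.under (𝓞 G₀)).under (𝓞 F₀) = (w.under (𝓞 F)).under (𝓞 F₀) := by
      rw [under_under, under_under]
    have h2 := A.fr _ h1 (rs G₀ (toF F₀ s)) (by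
      intro x
      have h3 := hs (algebraMap (𝓞 G₀) (𝓞 G) x)
      rw [hun, bij_norm hb]
      change algebraMap (𝓞 G₀) (𝓞 G) (rs G₀ (toF F₀ s) • x - x ^ _) ∈ w.asIdeal
      have h4 : algebraMap (𝓞 G₀) (𝓞 G) (rs G₀ (toF F₀ s) • x) =
          s • algebraMap (𝓞 G₀) (𝓞 G) x := by
        apply RingOfIntegers.ext
        exact rs_apply (toF F₀ s) (x : G₀)
      rw [map_sub, map_pow, h4]
      exact h3)
    rw [hun] at h2
    have h5 : ov F₀ Ψ (w.under (𝓞 F)).asIdeal = Ψ ((w.under (𝓞 F)).under (𝓞 F₀)).asIdeal := by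
      have h6 := ov_up hΨ (F := F₀) (w.under (𝓞 F))
      rw [bij_inertia hb, pow_one, ov_zero] at h6
      exact h6
    have h7 : psi F (w.under (𝓞 F)).asIdeal =
        psi F₀ ((w.under (𝓞 F)).under (𝓞 F₀)).asIdeal := by
      have h8 := TG.psi_up (F := F₀) (w.under (𝓞 F))
      rw [bij_inertia hb, pow_one] at h8
      exact h8
    rw [h5, h7, h2]
    rfl
  · intro v hv
    have h1 : (v.under (𝓞 G₀)).valuation G₀ (ℓ : G₀) < 1 := by
      rw [← val_map_lt, map_natCast]
      exact hv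
    obtain ⟨n, hn⟩ := A.ep _ h1
    refine ⟨n, ?_⟩
    rw [← hn, ← bij_od hc, map_natCast]
  · intro v hv hne
    have h1 : (v.under (𝓞 F₀)).valuation F₀ (ℓ : F₀) < 1 := by
      rw [← val_map_lt, map_natCast]
      exact hv
    have h2 : od (v.under (𝓞 F₀)) (ℓ : F₀) ≠ 1 := by
      rw [← bij_od hb, map_natCast]
      exact hne
    have h3 := A.na _ h1 h2
    have h6 := ov_up hΨ (F := F₀) v
    rw [bij_inertia hb, pow_one, ov_zero] at h6
    rw [h6]
    exact h3
  · intro hn v hv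
    have h1 : (v.under (𝓞 G₀)).valuation G₀ (ℓ : G₀) < 1 := by
      rw [← val_map_lt, map_natCast]
      exact hv
    have h2 := A.un hn _ h1
    rw [← bij_od hc, map_natCast] at h2
    exact h2
  · intro N _ _ _ _ _ _ _ _ _ _ P hP y hy
    let aF : Algebra F₀ N := ((algebraMap F N).comp (algebraMap F₀ F)).toAlgebra
    let aG : Algebra G₀ N := ((algebraMap G N).comp (algebraMap G₀ G)).toAlgebra
    have s1 : IsScalarTower F₀ F N := IsScalarTower.of_algebraMap_eq fun x => rfl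
    have s2 : IsScalarTower G₀ G N := IsScalarTower.of_algebraMap_eq fun x => rfl
    have s3 : IsScalarTower K F₀ N := IsScalarTower.of_algebraMap_eq fun x => by
      change algebraMap K N x = algebraMap F N (algebraMap F₀ F (algebraMap K F₀ x))
      rw [← IsScalarTower.algebraMap_apply K F₀ F, ← IsScalarTower.algebraMap_apply K F N]
    have s4 : IsScalarTower K G₀ N := IsScalarTower.of_algebraMap_eq fun x => by
      change algebraMap K N x = algebraMap G N (algebraMap G₀ G (algebraMap K G₀ x))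
      rw [← IsScalarTower.algebraMap_apply K G₀ G, ← IsScalarTower.algebraMap_apply K G N]
    have s5 : IsScalarTower F₀ G₀ N := IsScalarTower.of_algebraMap_eq fun x => by
      change algebraMap F N (algebraMap F₀ F x) = algebraMap G N (algebraMap G₀ G (algebraMap F₀ G₀ x))
      rw [← IsScalarTower.algebraMap_apply F₀ G₀ G, IsScalarTower.algebraMap_apply F₀ F G,
        ← IsScalarTower.algebraMap_apply F G N]
    have hG1 : IsGalois F₀ N := iso_galois (F := F) hb
    have hF : Full G₀ ϖ P := by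
      refine ⟨hP.ord, fun τ hτ => ?_, fun c hc' => ?_⟩
      · obtain ⟨σ, rfl⟩ := iso_surj (N := N) hc τ
        have h1 := hP.gen σ hτ
        rw [h1]
        rfl
      · obtain ⟨σ, hσ⟩ := hP.all c hc'
        exact ⟨toF G₀ σ, hσ⟩
    have hod : ∀ w : HeightOneSpectrum (𝓞 N), od (w.under (𝓞 G)) (ℓ : G) =
        od (w.under (𝓞 G₀)) (ℓ : G₀) := by
      intro w
      rw [← under_under (N := G₀) (N' := G) w, ← bij_od hc, map_natCast]
    refine A.vt N P hF y ⟨⟨hy.vw.od, ?_, fun w hw h1 => hy.vw.loc w hw ((hod w).trans h1),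
      fun w hw h1 => hy.vw.pl w hw fun h2 => h1 ((hod w).symm.trans h2)⟩, ?_⟩
    · obtain ⟨B, hB⟩ := hy.vw.iso
      refine ⟨B, fun τ c hτ => ?_⟩
      obtain ⟨σ, rfl⟩ := iso_surj (N := N) hc τ
      exact hB σ c hτ
    · obtain ⟨B, hB⟩ := hy.iso
      refine ⟨B, fun τ c hτ => ?_⟩
      obtain ⟨σ, rfl⟩ := iso_surj (N := N) hb τ
      refine hB σ c ?_
      rw [← hτ]
      have h1 : rs G₀ (toF F₀ (rs G σ)) = rs G₀ (toF F₀ σ) := by
        apply AlgEquiv.ext
        intro x
        apply (algebraMap G₀ G).injective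
        apply (algebraMap G N).injective
        have h2 : algebraMap G₀ G (rs G₀ (toF F₀ (rs G σ)) x) = rs G σ (algebraMap G₀ G x) :=
          rs_apply (toF F₀ (rs G σ)) x
        rw [h2, rs_apply, ← IsScalarTower.algebraMap_apply G₀ G N,
          ← IsScalarTower.algebraMap_apply G₀ G N, rs_apply]
        rfl
      change sm N (k (rs G₀ (toF F₀ (rs G σ)))) (ga σ P) = sm N (k (rs G₀ (toF F₀ σ))) (ga _ P)
      rw [h1]
      rfl
  · intro N _ _ _ _ _ _ _ _ _ _ P hP v hv
    let aF : Algebra F₀ N := ((algebraMap F N).comp (algebraMap F₀ F)).toAlgebra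
    let aG : Algebra G₀ N := ((algebraMap G N).comp (algebraMap G₀ G)).toAlgebra
    have s1 : IsScalarTower F₀ F N := IsScalarTower.of_algebraMap_eq fun x => rfl
    have s2 : IsScalarTower G₀ G N := IsScalarTower.of_algebraMap_eq fun x => rfl
    have s3 : IsScalarTower K F₀ N := IsScalarTower.of_algebraMap_eq fun x => by
      change algebraMap K N x = algebraMap F N (algebraMap F₀ F (algebraMap K F₀ x))
      rw [← IsScalarTower.algebraMap_apply K F₀ F, ← IsScalarTower.algebraMap_apply K F N]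
    have s4 : IsScalarTower K G₀ N := IsScalarTower.of_algebraMap_eq fun x => by
      change algebraMap K N x = algebraMap G N (algebraMap G₀ G (algebraMap K G₀ x))
      rw [← IsScalarTower.algebraMap_apply K G₀ G, ← IsScalarTower.algebraMap_apply K G N]
    have s5 : IsScalarTower F₀ G₀ N := IsScalarTower.of_algebraMap_eq fun x => by
      change algebraMap F N (algebraMap F₀ F x) = algebraMap G N (algebraMap G₀ G (algebraMap F₀ G₀ x))
      rw [← IsScalarTower.algebraMap_apply F₀ G₀ G, IsScalarTower.algebraMap_apply F₀ F G,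
        ← IsScalarTower.algebraMap_apply F G N]
    have hG1 : IsGalois F₀ N := iso_galois (F := F) hb
    have hF : Full G₀ ϖ P := by
      refine ⟨hP.ord, fun τ hτ => ?_, fun c hc' => ?_⟩
      · obtain ⟨σ, rfl⟩ := iso_surj (N := N) hc τ
        have h1 := hP.gen σ hτ
        rw [h1]
        rfl
      · obtain ⟨σ, hσ⟩ := hP.all c hc'
        exact ⟨toF G₀ σ, hσ⟩
    obtain ⟨τ, h1, h2⟩ := A.dt N P hF v hv
    obtain ⟨σ, rfl⟩ := iso_surj (N := N) hb τ
    refine ⟨σ, fun he => h1 ?_, h2⟩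
    refine Eq.trans ?_ he
    have h3 : rs G₀ (toF F₀ (rs G σ)) = rs G₀ (toF F₀ σ) := by
      apply AlgEquiv.ext
      intro x
      apply (algebraMap G₀ G).injective
      apply (algebraMap G N).injective
      have h2 : algebraMap G₀ G (rs G₀ (toF F₀ (rs G σ)) x) = rs G σ (algebraMap G₀ G x) :=
        rs_apply (toF F₀ (rs G σ)) x
      rw [h2, rs_apply, ← IsScalarTower.algebraMap_apply G₀ G N,
        ← IsScalarTower.algebraMap_apply G₀ G N, rs_apply]
      rfl
    change sm N (k (rs G₀ (toF F₀ σ))) (ga _ P) = sm N (k (rs G₀ (toF F₀ (rs G σ)))) (ga σ P)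
    rw [h3]
    rfl

end

end Pool.Agent.Lib.MP_1a91b9_nuY.TX
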