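import Pool.Agent.Lib.MP_1a91b9_nuY.TX.Twr
import Pool.Agent.Lib.MP_1a91b9_nuY.TX.Iso
import Pool.Agent.Lib.MP_1a91b9_nuY.TX.Fr
import Pool.Agent.Lib.MP_1a91b9_nuY.TS.Twr
import Pool.Agent.Lib.MP_1a91b9_nuY.TP.Top

/-!
# Twisted base: the fields of the tower
-/

set_option autoImplicit false

namespace Pool.Agent.Lib.MP_1a91b9_nuY.TX

variable [Pool.Agent.Lib.MP_1a91b9_nuT.CD]

open NumberField IsDedekindDomain WeierstrassCurve Module Pool.Agent.Lib.MP_1a91b9_nuT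
open Pool.Agent.Lib.MP_1a91b9_nuX Pool.Agent.Lib.MP_1a91b9_nuX.DB Pool.Agent.Lib.MP_1a91b9_nuX.DX
open Pool.Agent.Lib.MP_1a91b9_nuG (up Ram)
open Pool.Agent.Lib.MP_1a91b9_nuW.DS Pool.Agent.Lib.MP_1a91b9_nuW.DY
open Pool.Agent.Lib.MP_1a91b9_nuX.QW (ScD)
open Pool.Agent.Lib.MP_1a91b9_nuT.Per (cv cv_map)
open Pool.Agent.Lib.MP_1a91b9_nuT3.S9 (ShaP)
open Pool.Agent.Lib.MP_1a91b9_nuW.ZD (WOk)
open Pool.Agent.Lib.MP_1a91b9_nuY.TS
open scoped Classical

universe u

section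
variable (F₀ G₀ F : Type u) [Field F₀] [NumberField F₀] [Algebra K F₀] [Field G₀] [NumberField G₀]
  [Algebra K G₀] [Algebra F₀ G₀] [IsScalarTower K F₀ G₀] [IsGalois F₀ G₀] [Field F]
  [NumberField F] [Algebra K F] [Algebra F₀ F] [IsScalarTower K F₀ F]

/-- the compositum of `F` and of `G₀` -/
theorem exists_cmp : ∃ (G : Type u) (_ : Field G) (_ : NumberField G) (_ : Algebra K G)
    (_ : Algebra F G) (_ : Algebra F₀ G) (_ : Algebra G₀ G) (_ : IsScalarTower K F G)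
    (_ : IsScalarTower F₀ F G) (_ : IsScalarTower F₀ G₀ G) (_ : IsGalois F G), Cmp G₀ F G := by
  have hfd0 : FiniteDimensional F₀ G₀ := FiniteDimensional.right ℚ F₀ G₀
  obtain ⟨Ω, iΩ, aΩ, hΩ⟩ : ∃ (Ω : Type u) (_ : Field Ω) (_ : Algebra F Ω), IsAlgClosed Ω :=
    ⟨AlgebraicClosure F, inferInstance, inferInstance, inferInstance⟩
  let a0 : Algebra F₀ Ω := ((algebraMap F Ω).comp (algebraMap F₀ F)).toAlgebra
  have s0 : IsScalarTower F₀ F Ω := IsScalarTower.of_algebraMap_eq fun _ => rfl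
  have hQ : Algebra.IsAlgebraic ℚ G₀ := Algebra.IsAlgebraic.of_finite ℚ G₀
  have hal : Algebra.IsAlgebraic F₀ G₀ := Algebra.IsAlgebraic.of_finite F₀ G₀
  obtain ⟨j⟩ : Nonempty (G₀ →ₐ[F₀] Ω) := ⟨IsAlgClosed.lift⟩
  let aG : Algebra G₀ Ω := j.toRingHom.toAlgebra
  have s1 : IsScalarTower F₀ G₀ Ω := IsScalarTower.of_algebraMap_eq fun x => (j.commutes x).symm
  let L : IntermediateField F Ω := IntermediateField.adjoin F (Set.range (algebraMap G₀ Ω))
  have hfin : FiniteDimensional F L := by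
    obtain ⟨b⟩ : Nonempty (Basis (Fin (finrank F₀ G₀)) F₀ G₀) := ⟨finBasis F₀ G₀⟩
    have h1 : L = IntermediateField.adjoin F (Set.range fun i => algebraMap G₀ Ω (b i)) := by
      apply le_antisymm
      · refine IntermediateField.adjoin_le_iff.2 ?_
        rintro _ ⟨y, rfl⟩
        rw [← b.sum_repr y, map_sum]
        refine sum_mem fun i _ => ?_
        rw [Algebra.smul_def, map_mul, ← IsScalarTower.algebraMap_apply F₀ G₀ Ω,
          IsScalarTower.algebraMap_apply F₀ F Ω]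
        exact mul_mem (IntermediateField.algebraMap_mem _ _)
          (IntermediateField.subset_adjoin F _ ⟨i, rfl⟩)
      · refine IntermediateField.adjoin.mono F _ _ ?_
        rintro _ ⟨i, rfl⟩
        exact ⟨b i, rfl⟩
    rw [h1]
    refine IntermediateField.finiteDimensional_adjoin fun x hx => ?_
    obtain ⟨i, rfl⟩ := hx
    have h2 : IsIntegral F₀ (b i) := Algebra.IsIntegral.isIntegral _
    have h3 : IsIntegral F₀ (algebraMap G₀ Ω (b i)) := h2.algebraMap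
    exact h3.tower_top
  have hNF : NumberField L := NumberField.of_module_finite F L
  have hmem : ∀ x : G₀, algebraMap G₀ Ω x ∈ L := fun x =>
    IntermediateField.subset_adjoin F _ ⟨x, rfl⟩
  let i0 : G₀ →+* L := (algebraMap G₀ Ω).codRestrict L.toSubfield.toSubring hmem
  let a1 : Algebra G₀ L := i0.toAlgebra
  let a2 : Algebra K L := ((algebraMap F L).comp (algebraMap K F)).toAlgebra
  let a3 : Algebra F₀ L := ((algebraMap F L).comp (algebraMap F₀ F)).toAlgebra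
  have t1 : IsScalarTower K F L := IsScalarTower.of_algebraMap_eq fun _ => rfl
  have t2 : IsScalarTower F₀ F L := IsScalarTower.of_algebraMap_eq fun _ => rfl
  have t3 : IsScalarTower F₀ G₀ L := IsScalarTower.of_algebraMap_eq fun x => Subtype.ext (by
    change algebraMap F Ω (algebraMap F₀ F x) = algebraMap G₀ Ω (algebraMap F₀ G₀ x)
    rw [← IsScalarTower.algebraMap_apply F₀ G₀ Ω, ← IsScalarTower.algebraMap_apply F₀ F Ω])
  have hc : Cmp G₀ F L := by
    have h1 : (IntermediateField.adjoin F (Set.range (algebraMap G₀ L))).map L.val =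
        (⊤ : IntermediateField F L).map L.val := by
      rw [IntermediateField.adjoin_map, ← AlgHom.fieldRange_eq_map, IntermediateField.fieldRange_val,
        ← Set.range_comp]
      rfl
    exact IntermediateField.map_injective _ h1
  have hG : IsGalois F L := gal_comp F₀ G₀ F L hc
  exact ⟨L, inferInstance, hNF, a2, inferInstance, a3, a1, t1, t2, t3, hG, hc⟩

end

theorem tow_one (F₀ F G : Type u) [Field F₀] [Algebra K F₀] [Field F] [Algebra K F]
    [Algebra F₀ F] [IsScalarTower K F₀ F] [Field G] [Algebra K G] [Algebra F G] [Algebra F₀ G]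
    [IsScalarTower K F G] [IsScalarTower F₀ F G] : IsScalarTower K F₀ G :=
  IsScalarTower.of_algebraMap_eq fun x => by
    rw [IsScalarTower.algebraMap_apply K F G, IsScalarTower.algebraMap_apply K F₀ F,
      ← IsScalarTower.algebraMap_apply F₀ F G]

theorem tow_two (F₀ G₀ F G : Type u) [Field F₀] [Algebra K F₀] [Field G₀] [Algebra K G₀]
    [Algebra F₀ G₀] [IsScalarTower K F₀ G₀] [Field F] [Algebra K F]
    [Algebra F₀ F] [IsScalarTower K F₀ F] [Field G] [Algebra K G] [Algebra F G] [Algebra F₀ G]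
    [Algebra G₀ G] [IsScalarTower K F G] [IsScalarTower F₀ F G] [IsScalarTower F₀ G₀ G] :
    IsScalarTower K G₀ G :=
  IsScalarTower.of_algebraMap_eq fun x => by
    rw [IsScalarTower.algebraMap_apply K F G, IsScalarTower.algebraMap_apply K F₀ F,
      ← IsScalarTower.algebraMap_apply F₀ F G, IsScalarTower.algebraMap_apply F₀ G₀ G,
      ← IsScalarTower.algebraMap_apply K F₀ G₀]

section
variable {F₀ G₀ F G : Type u} [Field F₀] [NumberField F₀] [Algebra K F₀] [Field G₀]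
  [NumberField G₀] [Algebra K G₀] [Algebra F₀ G₀] [IsScalarTower K F₀ G₀] [IsGalois F₀ G₀]
  [Field F] [NumberField F] [Algebra K F] [Algebra F₀ F] [IsScalarTower K F₀ F]
  [Field G] [NumberField G] [Algebra K G] [Algebra F G] [Algebra F₀ G] [Algebra G₀ G]
  [IsScalarTower K F G] [IsScalarTower F₀ F G] [IsScalarTower F₀ G₀ G] [IsGalois F G]

/-- the restriction of the character -/
noncomputable def thr (θ : Gal(G₀/F₀) →* (𝓞 K)ˣ) : Gal(G/F) →* (𝓞 K)ˣ where
  toFun s := θ (rs G₀ (toF F₀ s))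
  map_one' := by
    have t1 : IsScalarTower K F₀ G := tow_one F₀ F G
    have t2 : IsScalarTower K G₀ G := tow_two F₀ G₀ F G
    have h1 : rs G₀ (toF F₀ (1 : Gal(G/F))) = 1 := by
      apply AlgEquiv.ext
      intro x
      apply (algebraMap G₀ G).injective
      rw [rs_apply]
      rfl
    rw [h1, map_one]
  map_mul' s t := by
    have t1 : IsScalarTower K F₀ G := tow_one F₀ F G
    have t2 : IsScalarTower K G₀ G := tow_two F₀ G₀ F G
    have h1 : rs G₀ (toF F₀ (s * t)) = rs G₀ (toF F₀ s) * rs G₀ (toF F₀ t) :=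
      rs_mul (N := G₀) (toF F₀ s) (toF F₀ t)
    rw [h1, map_mul]

/-- the form over `F` -/
theorem scD_up {a b : F₀} {u : G₀} {θ : Gal(G₀/F₀) →* (𝓞 K)ˣ} (hs : ScD a b u θ) :
    ScD (algebraMap F₀ F a) (algebraMap F₀ F b) (algebraMap G₀ G u)
      (thr θ : Gal(G/F) →* (𝓞 K)ˣ) := by
  have t1 : IsScalarTower K F₀ G := tow_one F₀ F G
  have t2 : IsScalarTower K G₀ G := tow_two F₀ G₀ F G
  refine ⟨(map_ne_zero _).2 hs.ne, ?_, ?_, fun s => ?_⟩
  · rw [← IsScalarTower.algebraMap_apply F₀ F G, IsScalarTower.algebraMap_apply F₀ G₀ G, hs.ha,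
      map_mul, map_pow, map_intCast]
  · rw [← IsScalarTower.algebraMap_apply F₀ F G, IsScalarTower.algebraMap_apply F₀ G₀ G, hs.hb,
      map_mul, map_pow, map_intCast]
  · have h1 := congrArg (algebraMap G₀ G) (hs.th (rs G₀ (toF F₀ s)))
    rw [rs_apply, toF_apply, map_mul, ← IsScalarTower.algebraMap_apply K G₀ G] at h1
    exact h1

end

/-- The field `F` over `F₀` is good for `ℓ`, `Ψ` and the curve `W₀`. -/
structure GoodY (ℓ : ℕ) [Fact ℓ.Prime] (F₀ F : Type u) [Field F₀] [NumberField F₀] [Field F]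
    [NumberField F] [Algebra K F] [Algebra F₀ F] (Ψ : Ideal (𝓞 F₀) → 𝓞 K)
    (W₀ : WeierstrassCurve F₀) : Prop where
  good : ¬ (ℓ : ℤ) ∣ CD.bad
  unitZ : UnitZY ℓ F (ov F₀ Ψ)
  wok : WOk ℓ F
  fin : Finite (W₀.map (algebraMap F₀ F)).toAffine.Point
  cop : (Nat.card (W₀.map (algebraMap F₀ F)).toAffine.Point).Coprime ℓ
  sha : Subsingleton (ShaP ℓ (W₀.map (algebraMap F₀ F)))

variable [HC]

section
variable {F₀ G₀ : Type u} [Field F₀] [NumberField F₀] [Algebra K F₀] [Field G₀] [NumberField G₀]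
  [Algebra K G₀] [Algebra F₀ G₀] [IsScalarTower K F₀ G₀] [IsGalois F₀ G₀]

/-- **The fields of the tower are good.** -/
theorem goodY_of {g : 𝓞 K} {ℓ : ℕ} [hℓ : Fact ℓ.Prime] {θ : Gal(G₀/F₀) →* (𝓞 K)ˣ}
    {Ψ : Ideal (𝓞 F₀) → 𝓞 K} (hB : BaseY g ℓ F₀ G₀ (kth θ) Ψ) {a b : F₀} {u : G₀}
    (hs : ScD a b u θ) {F : Type u} [Field F] [NumberField F] [Algebra K F] [Algebra F₀ F]
    [IsScalarTower K F₀ F] (h : TowF F₀ Ψ ℓ F) : GoodY ℓ F₀ F Ψ (cv a b) := by
  obtain ⟨ϖ, q, hp⟩ := DX.exists_pd hℓ.out hB.good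
  obtain ⟨G, i1, i2, i3, i4, i5, i6, t1, t2, t3, hG, hc⟩ := exists_cmp F₀ G₀ F
  have key : ∀ (ϖ : 𝓞 K) (q : ℕ), PD ϖ ℓ q → AWK F G (kr (kth θ) F G) g ϖ ℓ (ov F₀ Ψ) := by
    intro ϖ q hp
    refine awk_towF hp hB.hf ?_ F h G hc
    intro F' _ _ _ _ _ G' _ _ _ _ _ _ _ _ _ _ hb hc'
    have t2 : IsScalarTower K G₀ G' := tow_two F₀ G₀ F' G'
    exact awk_copy hB.hf hb hc' (hB.aw ϖ q hp)
  obtain ⟨h1, h2, h3⟩ := TP.topK (scD_up (F := F) (G := G) hs) (k := kr (kth θ) F G)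
    (fun s => rfl) hp (key ϖ q hp) (key (cj ϖ) q (pd_cj hp))
  refine ⟨hB.good, unitZY_towF hℓ.out hB h, wok_towF hℓ.out hB h, ?_, ?_, ?_⟩
  · rw [cv_map]
    exact h1
  · rw [cv_map]
    exact h2
  · rw [cv_map]
    exact h3

end

end Pool.Agent.Lib.MP_1a91b9_nuY.TX
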