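import Pool.Agent.Lib.MP_1a91b9_nuY.TX.Fr
import Pool.Agent.Lib.MP_1a91b9_nuX.TH.Sc
import Pool.Agent.Lib.MP_1a91b9_nuX.TH.Ab
import Pool.Agent.Lib.MP_1a91b9_nuX.TG.Exc
import Pool.Agent.Lib.MP_1a91b9_nuX.PH.Main
import Pool.Agent.Lib.MP_1a91b9_nt.LocalTwist

/-!
# Twisted base: the number of points of the reduction of the form of the curve
-/

set_option autoImplicit false

namespace Pool.Agent.Lib.MP_1a91b9_nuY.TX

variable [Pool.Agent.Lib.MP_1a91b9_nuT.CD]

open NumberField IsDedekindDomain WeierstrassCurve Module Polynomial Pool.Agent.Lib.MP_1a91b9_nuT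
open Pool.Agent.Lib.MP_1a91b9_nt
open Pool.Agent.Lib.MP_1a91b9_nuX Pool.Agent.Lib.MP_1a91b9_nuX.DB
open Pool.Agent.Lib.MP_1a91b9_nuX.GL
open Pool.Agent.Lib.MP_1a91b9_nuG (up Ram)
open Pool.Agent.Lib.MP_1a91b9_nuX.TG Pool.Agent.Lib.MP_1a91b9_nuX.TC
open Pool.Agent.Lib.MP_1a91b9_nuX.PG (Gd FDat)
open Pool.Agent.Lib.MP_1a91b9_nuX.PH (Hv psP AbW fdatP)
open Pool.Agent.Lib.MP_1a91b9_nuX.QW (ScD span_le_gB)
open Pool.Agent.Lib.MP_1a91b9_nuX.LF (crv crv_map crv_Δ)
open Pool.Agent.Lib.MP_1a91b9_nuT.CF (IsFr exists_over exists_fr)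
open Pool.Agent.Lib.MP_1a91b9_nuT.Per (cv)

universe u

private theorem fix_restrict {F L : Type u} [Field F] [Field L] [Algebra K F] [Algebra K L]
    [Algebra F L] [IsScalarTower K F L] [Normal F L] (i : L →ₐ[K] Kb) (σ : Kb ≃ₐ[K] Kb)
    (h : ∀ x : F, σ (i (algebraMap F L x)) = i (algebraMap F L x)) :
    ∃ τ : Gal(L/F), ∀ x, i (τ x) = σ (i x) := by
  let _ : Algebra L Kb := i.toRingHom.toAlgebra
  let _ : Algebra F Kb := ((i : L →+* Kb).comp (algebraMap F L)).toAlgebra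
  have _ : IsScalarTower F L Kb := IsScalarTower.of_algebraMap_eq (fun x => rfl)
  let σ' : Kb ≃ₐ[F] Kb := AlgEquiv.ofRingEquiv (f := σ.toRingEquiv) h
  exact ⟨σ'.restrictNormal L, fun x => σ'.restrictNormal_commutes L x⟩

variable [HC]

section
variable {μ g : 𝓞 K} {F L : Type u} [Field F] [NumberField F] [Algebra K F]
  [Field L] [NumberField L] [Algebra K L]
  [Algebra F L] [IsScalarTower K F L] [DecidableEq L] [IsGalois F L] {T : Pt L}
  {θ : Gal(L/F) →* (𝓞 K)ˣ}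

/-- The form becomes isomorphic to the curve over the field of the points killed by `μ`. -/
theorem abW_gal (hT : AbT μ F T) {W : WeierstrassCurve F} {D₀ : VariableChange L}
    (hD : D₀ • E L = W.map (algebraMap F L)) : AbW W μ := by
  classical
  have hL : Algebra.IsAlgebraic K L := by
    have h1 : Algebra.IsAlgebraic ℚ L := Algebra.IsAlgebraic.of_finite ℚ L
    exact Algebra.IsAlgebraic.tower_top (K := ℚ) K
  obtain ⟨ι⟩ : Nonempty (L →ₐ[K] Kb) := ⟨IsAlgClosed.lift⟩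
  have hD' : D₀.map (ι : L →+* Kb) • EF Kb =
      W.map ((ι.comp (IsScalarTower.toAlgHom K F L) : F →ₐ[K] Kb) : F →+* Kb) := by
    have e1 : EF Kb = (E L).map (ι : L →+* Kb) := by
      refine WeierstrassCurve.ext ?_ ?_ ?_ ?_ ?_
      · exact (map_zero (algebraMap K Kb)).trans (map_zero _).symm
      · exact (map_zero (algebraMap K Kb)).trans (map_zero _).symm
      · exact (map_zero (algebraMap K Kb)).trans (map_zero _).symm
      · exact (map_intCast (algebraMap K Kb) _).trans (map_intCast _ _).symm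
      · exact (map_intCast (algebraMap K Kb) _).trans (map_intCast _ _).symm
    rw [e1, WeierstrassCurve.map_variableChange, hD, WeierstrassCurve.map_map]
    rfl
  refine ⟨ι.comp (IsScalarTower.toAlgHom K F L), D₀.map (ι : L →+* Kb), hD',
    fun σ hσN hσ => ?_⟩
  have hn : Normal F L := IsGalois.to_normal
  obtain ⟨τ, hτ⟩ := fix_restrict ι σ hσN
  have h1 : ga σ (pm ι T) = pm ι T := by
    refine hσ _ ?_
    rw [← pm_sm, (hT.ord μ).2 dvd_rfl, map_zero]
  have h2 : pm ι (ga τ T) = ga σ (pm ι T) := by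
    have e : ((σ : Kb →ₐ[K] Kb).restrictScalars K).comp ι =
        ι.comp ((τ : L →ₐ[F] L).restrictScalars K) := by
      ext x
      exact (hτ x).symm
    unfold ga
    rw [WeierstrassCurve.Affine.Point.map_map, WeierstrassCurve.Affine.Point.map_map, e]
  have h3 : τ = 1 := hT.gen τ (pm_inj ι (h2.trans h1))
  have h5 : ∀ x : L, σ (ι x) = ι x := fun x => by
    rw [← hτ, h3, AlgEquiv.one_apply]
  exact trs_fix (N := K) (h5 _) (h5 _) (h5 _) (h5 _)

/-- the values of the character at the good places -/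
theorem psT_hv (hE : EllK) (hT : AbT μ F T) (hg : gB μ ∣ g) {a b : F} {u : L}
    (hs : ScD a b u θ) (v : HeightOneSpectrum (𝓞 F)) (hv : up g F ∉ v.asIdeal) :
    psT F T g θ v.asIdeal = Hv (cv a b) v := by
  have hvm : ¬ Ideal.span {up g F} ≤ v.asIdeal := fun h =>
    hv ((Ideal.span_singleton_le_iff_mem _).1 h)
  have hf : HC.f ∉ (v.under (𝓞 K)).asIdeal := fun h =>
    hv (v.asIdeal.mem_of_dvd (map_dvd (algebraMap (𝓞 K) (𝓞 F)) ((f_dvd_gB μ).trans hg)) h)
  have hgB : up (gB μ) F ∉ v.asIdeal := fun h =>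
    hv (v.asIdeal.mem_of_dvd (map_dvd (algebraMap (𝓞 K) (𝓞 F)) hg) h)
  have hr : ¬ CF.Ram L v := fun h => hT.not_ram v hgB ((MP_1a91b9_nuG.ram_eq _).2 h)
  have hcop : IsCoprime v.asIdeal (Ideal.span {up g F}) := by
    by_contra h
    exact hvm ((S4.le_iff_not_coprime _ _).2 h)
  obtain ⟨w, rfl⟩ := exists_over (k := F) (N := L) v
  obtain ⟨σ, hσ⟩ := exists_fr (k := F) w
  have hgd : Gd (cv a b) (w.under (𝓞 F)) := by
    refine TH.gd_down (F := L) hr ?_
    have h4 : HC.f ∉ (w.under (𝓞 K)).asIdeal := by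
      have e : ((w.under (𝓞 F)).under (𝓞 K)) = w.under (𝓞 K) :=
        HeightOneSpectrum.ext (Ideal.under_under _)
      rwa [e] at hf
    rw [← TH.sc_iso hs.ne hs.ha hs.hb]
    exact (LG.gd_iso rfl w).1 (TH.gd_E h4)
  have e1 := TH.sc_val hE hs (W := cv a b) (D := 1) (one_smul _ _) w hf hr hgd σ hσ
  rw [psT_of hcop, art_fr hT (span_le_gB hg F) _ hvm w σ rfl hσ, e1, mul_comm, ← mul_assoc,
    ← Units.val_mul, inv_mul_cancel, Units.val_one, one_mul]

/-- **The number of points of the reduction.** -/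
theorem card_psT (hE : EllK) (hT : AbT μ F T) (hg : gB μ ∣ g) {α β : 𝓞 F} {u : L}
    (hs : ScD (α : F) (β : F) u θ) (v : HeightOneSpectrum (𝓞 F)) (hv : up g F ∉ v.asIdeal)
    (hd : 16 * (4 * α ^ 3 + 27 * β ^ 2) ∉ v.asIdeal) :
    (1 - psT F T g θ v.asIdeal) * (1 - cj (psT F T g θ v.asIdeal)) =
      ((Nat.card (⟨0, 0, 0, Ideal.Quotient.mk v.asIdeal α, Ideal.Quotient.mk v.asIdeal β⟩ :
        WeierstrassCurve (𝓞 F ⧸ v.asIdeal)).toAffine.Point : ℕ) : 𝓞 K) := by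
  obtain ⟨m, hm⟩ := fdatP hE hT.ne (abW_gal hT (TH.sc_iso hs.ne hs.ha hs.hb))
  have h1 := hm.loc v
  have h2 : psP (cv (α : F) (β : F)) v.asIdeal = Hv (cv (α : F) (β : F)) v := PG.psI_prime _ v
  have h3 := lt_locPoly (cv (α : F) (β : F)) 1 (crv α β) (by
    rw [one_smul, crv_map]
    rfl) v (by
    rw [crv_Δ]
    intro hmem
    exact hd ((v.asIdeal.neg_mem_iff).1 hmem))
  rw [h2, ← psT_hv hE hT hg hs v hv, h3] at h1
  have h4 := congrArg (Polynomial.eval (1 : 𝓞 K)) h1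
  simp only [Polynomial.map_add, Polynomial.map_sub, Polynomial.map_one, Polynomial.map_mul,
    Polynomial.map_pow, Polynomial.map_X, Polynomial.map_C, eval_add, eval_sub, eval_one,
    eval_mul, eval_pow, eval_X, eval_C, mul_one, one_pow, map_add, map_sub, map_one,
    map_natCast, Polynomial.map_natCast, eval_natCast] at h4
  rw [← h4, crv_map]
  ring_nf
  rfl

/-- `ψ - 1` is prime to `ℓ` when the number of points over the residue field is. -/
theorem cnt_psT (hE : EllK) (hT : AbT μ F T) (hg : gB μ ∣ g) {α β : 𝓞 F} {u : L}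
    (hs : ScD (α : F) (β : F) u θ) {ℓ : ℕ} (hℓ : ℓ.Prime) (v : HeightOneSpectrum (𝓞 F))
    (hv : up g F ∉ v.asIdeal) (hd : 16 * (4 * α ^ 3 + 27 * β ^ 2) ∉ v.asIdeal)
    (hc : ¬ ℓ ∣ Nat.card (⟨0, 0, 0, Ideal.Quotient.mk v.asIdeal α,
      Ideal.Quotient.mk v.asIdeal β⟩ : WeierstrassCurve (𝓞 F ⧸ v.asIdeal)).toAffine.Point) :
    IsCoprime (psT F T g θ v.asIdeal - 1) (ℓ : 𝓞 K) := by
  have h1 := card_psT hE hT hg hs v hv hd
  refine Ell.kq_odd' _ _ (Nat.Coprime.symm ((Nat.Prime.coprime_iff_not_dvd hℓ).2 hc))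
    (cj (psT F T g θ v.asIdeal) - 1) ?_
  rw [← h1]
  ring

end

section
variable {g c : 𝓞 K} {F : Type u} [Field F] [NumberField F] [Algebra K F]
  {Ψ : Ideal (𝓞 F) → 𝓞 K}

/-- the character is not one at a prime ideal -/
theorem hf_ne_one (h : HF g F Ψ) (v : HeightOneSpectrum (𝓞 F)) : Ψ v.asIdeal ≠ 1 := by
  intro h1
  by_cases h3 : IsCoprime v.asIdeal (Ideal.span {up g F})
  · have h2 := h.span v.asIdeal h3
    rw [h1, Ideal.span_singleton_one] at h2
    have h4 : v.asIdeal = ⊤ := by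
      have h5 := congrArg Ideal.absNorm h2
      rw [Ideal.absNorm_top, Ideal.absNorm_relNorm] at h5
      exact Ideal.absNorm_eq_one_iff.1 h5.symm
    exact v.isPrime.ne_top h4
  · rw [h.zero _ h3] at h1
    exact zero_ne_one h1

/-- The places above `c` are not anomalous for almost all primes. -/
theorem nac_psT (hc : c ≠ 0) (h : HF g F Ψ) :
    ∃ n : ℕ, n ≠ 0 ∧ ∀ ℓ : ℕ, ℓ.Prime → ¬ ℓ ∣ n → ∀ v : HeightOneSpectrum (𝓞 F),
      up c F ∈ v.asIdeal → IsCoprime (Ψ v.asIdeal - 1) (ℓ : 𝓞 K) := by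
  classical
  have h0 : up c F ≠ 0 := fun h0 =>
    hc ((FaithfulSMul.algebraMap_injective (𝓞 K) (𝓞 F)) (by rw [map_zero]; exact h0))
  have hI : Ideal.span {up c F} ≠ 0 := by
    rw [Ne, Ideal.zero_eq_bot, Ideal.span_singleton_eq_bot]
    exact h0
  have hfin : {v : HeightOneSpectrum (𝓞 F) | up c F ∈ v.asIdeal}.Finite := by
    refine (Ideal.finite_factors hI).subset fun v hv => ?_
    exact Ideal.dvd_span_singleton.mpr hv
  choose n hn0 hn using fun v : HeightOneSpectrum (𝓞 F) => cop_almost (hf_ne_one h v)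
  refine ⟨∏ v ∈ hfin.toFinset, n v, Finset.prod_ne_zero_iff.2 fun v _ => hn0 v,
    fun ℓ hℓ hd v hv => hn v ℓ hℓ fun h => hd (h.trans ?_)⟩
  exact Finset.dvd_prod_of_mem _ ((Set.Finite.mem_toFinset hfin).2 hv)

end

end Pool.Agent.Lib.MP_1a91b9_nuY.TX
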