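import Pool.Agent.Lib.MP_1a91b9_nuY.TX.Sub
import Pool.Agent.Lib.MP_1a91b9_nuY.AN.Cyc
import Pool.Agent.Lib.MP_1a91b9_nuY.ZD.Defs
import Pool.Agent.Lib.MP_1a91b9_nuT.TG.Low

/-!
# Twisted base: copies of the base field
-/

set_option autoImplicit false

namespace Pool.Agent.Lib.MP_1a91b9_nuY.TX

variable [Pool.Agent.Lib.MP_1a91b9_nuT.CD]

open NumberField IsDedekindDomain Module Pool.Agent.Lib.MP_1a91b9_nt Pool.Agent.Lib.MP_1a91b9_nuT
open Pool.Agent.Lib.MP_1a91b9_nuT.S4 (Over Lf hasProd_Lf hasProd_over)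
open Pool.Agent.Lib.MP_1a91b9_nuT.S5 (below mem_below exists_above below_below)
open Pool.Agent.Lib.MP_1a91b9_nuG (up Ram)
open Pool.Agent.Lib.MP_1a91b9_nuT.TG (one_cases)

universe u

section
variable {F₀ F : Type*} [Field F₀] [NumberField F₀] [Field F] [NumberField F] [Algebra F₀ F]
  (hb : Function.Bijective (algebraMap F₀ F))
include hb

omit [CD] [NumberField F₀] [NumberField F] in
theorem bij_galois : IsGalois F₀ F :=
  IsGalois.of_algEquiv (AlgEquiv.ofBijective (Algebra.ofId F₀ F) hb)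

omit [CD] [NumberField F₀] [NumberField F] in
theorem bij_finrank : finrank F₀ F = 1 :=
  (LinearEquiv.ofBijective (Algebra.linearMap F₀ F) hb).finrank_eq.symm.trans (finrank_self F₀)

/-- nothing ramifies in an extension of degree one -/
theorem bij_not_ram (v : HeightOneSpectrum (𝓞 F₀)) : ¬ Ram F v := by
  have hG := bij_galois hb
  rintro ⟨w, hw⟩
  have h1 := MP_1a91b9_nuT3.S8.eq_below v w (hw.trans (Ideal.pow_le_self two_ne_zero))
  have h2 := (MP_1a91b9_nuT3.EF.ef_dvd v w (by rw [← h1]; rfl)).2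
  rw [bij_finrank hb, Nat.dvd_one] at h2
  have hmp : v.asIdeal.map (algebraMap (𝓞 F₀) (𝓞 F)) ≤ w.asIdeal :=
    hw.trans (Ideal.pow_le_self two_ne_zero)
  have h3 := (Ideal.ramificationIdx'_ne_one_iff hmp).2 hw
  exact h3 h2

end

section
variable {F F' : Type u} [Field F] [NumberField F] [Field F'] [NumberField F'] [Algebra F F']
  [Algebra K F] [Algebra K F'] [IsScalarTower K F F'] {g : 𝓞 K} {Ψ : Ideal (𝓞 F) → 𝓞 K}

/-- The series in an extension of degree one. -/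
theorem one_LfY (hf : HF g F Ψ) [IsGalois F F'] (hL : Module.finrank F F' = 1) (s : ℂ)
    (hs : 2 < s.re) : Lf (pB (ovr F' Ψ)) s = Lf (pB Ψ) s := by
  have hf' : HF g F' (ovr F' Ψ) := hf.ovr
  have h1 := (hasProd_Lf (pB (ovr F' Ψ)) (pB_one hf') (fun I J => pB_mul hf' I J) (1 / 2)
    (by norm_num) (fun I => norm_pB_le hf' I) s (by linarith)).2
  have h2 := hasProd_over (F := F) (F' := F') _ _ h1
  have h4 := (hasProd_Lf (pB Ψ) (pB_one hf) (fun I J => pB_mul hf I J) (1 / 2) (by norm_num)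
    (fun I => norm_pB_le hf I) s (by linarith)).2
  refine h2.unique ?_
  have e : (fun v : HeightOneSpectrum (𝓞 F) => ∏ w : Over F' v, (1 - pB (ovr F' Ψ) w.1.asIdeal *
        (Ideal.absNorm w.1.asIdeal : ℂ) ^ (-s))⁻¹) = fun v =>
      (1 - pB Ψ v.asIdeal * (Ideal.absNorm v.asIdeal : ℂ) ^ (-s))⁻¹ := by
    funext v
    obtain ⟨h7, h8⟩ := one_cases hL v
    rw [Finset.prod_congr rfl (g := fun _ =>
      (1 - pB Ψ v.asIdeal * (Ideal.absNorm v.asIdeal : ℂ) ^ (-s))⁻¹)]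
    · rw [Finset.prod_const, Finset.card_univ, h7, pow_one]
    · intro w _
      have h9 := (h8 w).2
      rw [nrm_eq, nrm_eq] at h9
      rw [pB_over hf v w, (h8 w).1, pow_one, h9]
  rw [e]
  exact h4

theorem unitT_one (hf : HF g F Ψ) [IsGalois F F'] (hL : Module.finrank F F' = 1) {q : ℕ}
    (h : UnitT q F Ψ) : UnitT q F' (ovr F' Ψ) := by
  obtain ⟨L, h1, h2, h3⟩ := h
  refine ⟨L, h1, fun s hs => by rw [h2 s hs, one_LfY hf hL s hs], fun W hW => ?_⟩
  rw [← Module.finrank_mul_finrank K F F', hL, mul_one]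
  exact h3 W hW

end

end Pool.Agent.Lib.MP_1a91b9_nuY.TX
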