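import Pool.Agent.Lib.MP_1a91b9_nuY.TX.One
import Pool.Agent.Lib.MP_1a91b9_nuY.AN.Step
import Pool.Agent.Lib.MP_1a91b9_nuY.AN.StepW
import Pool.Agent.Lib.MP_1a91b9_nuW.TH.Twr
import Pool.Agent.Lib.MP_1a91b9_nuW.TH.Val
import Pool.Agent.Lib.MP_1a91b9_nuW.CF.MainW

/-!
# Twisted base: the unit property over the fields of the tower
-/

set_option autoImplicit false

namespace Pool.Agent.Lib.MP_1a91b9_nuY.TX

variable [Pool.Agent.Lib.MP_1a91b9_nuT.CD]

open NumberField IsDedekindDomain Module Pool.Agent.Lib.MP_1a91b9_nt Pool.Agent.Lib.MP_1a91b9_nuT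
open Pool.Agent.Lib.MP_1a91b9_nuX Pool.Agent.Lib.MP_1a91b9_nuX.DX Pool.Agent.Lib.MP_1a91b9_nuX.DS
open Pool.Agent.Lib.MP_1a91b9_nuT.S5 (below mem_below exists_above below_below)
open Pool.Agent.Lib.MP_1a91b9_nuG (up Ram ValueProp)
open Pool.Agent.Lib.MP_1a91b9_nuX.TG (e2_up five_le not_ram_of_unr valueProp_e2)
open Pool.Agent.Lib.MP_1a91b9_nuW (Spl cK)
open Pool.Agent.Lib.MP_1a91b9_nuW.DY (Splt)
open Pool.Agent.Lib.MP_1a91b9_nuW.ZD (WOk spl_conj)
open Pool.Agent.Lib.MP_1a91b9_nuW.TH (exists_spl)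
open Pool.Agent.Lib.MP_1a91b9_nuW (exists_wx)

universe u

/-- the field `F` over `K` -/
theorem exists_alg (F₀ F F' : Type u) [Field F₀] [Algebra K F₀] [Field F] [Algebra F₀ F]
    [Field F'] [Algebra F₀ F'] [Algebra F F'] [IsScalarTower F₀ F F'] [Algebra K F']
    [IsScalarTower K F₀ F'] :
    ∃ _ : Algebra K F, IsScalarTower K F₀ F ∧ IsScalarTower K F F' := by
  let aKF : Algebra K F := ((algebraMap F₀ F).comp (algebraMap K F₀)).toAlgebra
  refine ⟨aKF, IsScalarTower.of_algebraMap_eq fun x => rfl,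
    IsScalarTower.of_algebraMap_eq fun x => ?_⟩
  change algebraMap K F' x = algebraMap F F' (algebraMap F₀ F (algebraMap K F₀ x))
  rw [← IsScalarTower.algebraMap_apply F₀ F F', ← IsScalarTower.algebraMap_apply K F₀ F']

section
variable {F₀ : Type u} [Field F₀] [NumberField F₀] [Algebra K F₀] {Ψ : Ideal (𝓞 F₀) → 𝓞 K}
  {ℓ : ℕ} (hℓ : ℓ.Prime)
include hℓ

theorem e2_towF (he : ¬ ℓ ∣ 2 ^ finrank K F₀ - 1) {F : Type u} [Field F] [NumberField F]
    [Algebra F₀ F] (h : TowF F₀ Ψ ℓ F) :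
    ∀ [Algebra K F] [IsScalarTower K F₀ F], ¬ ℓ ∣ 2 ^ finrank K F - 1 := by
  induction h with
  | base F hb =>
    intro _ _
    rw [← Module.finrank_mul_finrank K F₀ F, bij_finrank hb, mul_one]
    exact he
  | step F F' hG hr hu ha h ih =>
    intro _ _
    obtain ⟨_, t1, t2⟩ := exists_alg F₀ F F'
    rw [← Module.finrank_mul_finrank K F F', hr]
    exact e2_up hℓ ih

/-- nothing above `ℓ` ramifies if `ℓ` does not split -/
theorem unr_towF (hs : ¬ Splt ℓ) (hu0 : UnrL ℓ F₀) {F : Type u} [Field F] [NumberField F]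
    [Algebra F₀ F] (h : TowF F₀ Ψ ℓ F) :
    ∀ [Algebra K F] [IsScalarTower K F₀ F], ∀ q : HeightOneSpectrum (𝓞 K),
      (ℓ : 𝓞 K) ∈ q.asIdeal → ¬ Ram F q := by
  induction h with
  | base F hb =>
    intro _ _ q hq
    exact MP_1a91b9_nuT3.S8.not_ram_tower (F := F₀) q (not_ram_of_unr hu0 hℓ.ne_zero q hq)
      fun v _ => bij_not_ram hb v
  | step F F' hG hr hu ha h ih =>
    intro _ _ q hq
    obtain ⟨_, t1, t2⟩ := exists_alg F₀ F F'
    refine MP_1a91b9_nuT3.S8.not_ram_tower (F := F) q (ih q hq) fun v hv h3 => hs (hu v ?_ h3)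
    subst hv
    rw [mem_below, map_natCast] at hq
    exact hq

end

section
variable [HC] {F₀ G₀ : Type u} [Field F₀] [NumberField F₀] [Algebra K F₀] [Field G₀]
  [NumberField G₀] [Algebra K G₀] [Algebra F₀ G₀] [IsScalarTower K F₀ G₀] [IsGalois F₀ G₀]
  {k : Gal(G₀/F₀) → 𝓞 K} {Ψ : Ideal (𝓞 F₀) → 𝓞 K} {g : 𝓞 K} {ℓ : ℕ} (hℓ : ℓ.Prime)
  (hB : BaseY g ℓ F₀ G₀ k Ψ)
include hℓ hB

/-- the base -/
theorem unitZY_base {F : Type u} [Field F] [NumberField F] [Algebra F₀ F] [Algebra K F]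
    [IsScalarTower K F₀ F] (hb : Function.Bijective (algebraMap F₀ F)) :
    UnitT ℓ F (ov F₀ Ψ) ∧ UnitZY ℓ F (ov F₀ Ψ) := by
  have hG := bij_galois hb
  have h1 : UnitT ℓ F (ov F₀ Ψ) := unitT_one hB.hf (bij_finrank hb) hB.unit
  refine ⟨h1, unitZY_of_unitT hℓ.ne_zero (fun q hq => ?_) h1⟩
  exact MP_1a91b9_nuT3.S8.not_ram_tower (F := F₀) q (not_ram_of_unr hB.unr hℓ.ne_zero q hq)
    fun v _ => bij_not_ram hb v

/-- the unit property above `p` over the fields of the tower -/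
theorem unitY_towF {p : 𝓞 K} (hp : Spl p ℓ) {F : Type u} [Field F] [NumberField F]
    [Algebra F₀ F] (h : TowF F₀ Ψ ℓ F) :
    ∀ [Algebra K F] [IsScalarTower K F₀ F], UnitY p F (ov F₀ Ψ) := by
  have hfl : Fact ℓ.Prime := ⟨hℓ⟩
  induction h with
  | base F hb =>
    intro _ _
    exact unitY_of_unitZY hℓ.ne_zero ⟨_, hp.mul.symm⟩ (unitZY_base hℓ hB hb).2
  | step F F' hG hr hu ha h ih =>
    intro _ _
    obtain ⟨_, t1, t2⟩ := exists_alg F₀ F F'
    obtain ⟨x, f, hx⟩ := exists_wx hℓ hp.odd F F' hr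
    have h3 : Nat.Coprime 2 ℓ := (Nat.coprime_primes Nat.prime_two hℓ).2 (Ne.symm hp.odd)
    have h4 : IsCoprime (2 : 𝓞 K) (ℓ : 𝓞 K) := by
      have h5 := Nat.Coprime.cast (R := 𝓞 K) h3
      rwa [Nat.cast_ofNat] at h5
    have hf : HF g F (ovr F Ψ) := hB.hf.ovr
    have h5 := stepW hf hB.fg hr hp hB.gl hx (fun v hv _ => ha v hv) 2 h4
      (Pool.Agent.Lib.MP_1a91b9_nuW.VA.valW_two hp F (e2_towF hℓ hB.e2 h)) ih
    rw [ovr_ovr] at h5
    exact h5

/-- the unit property above `ℓ` over the fields of the tower, if `ℓ` does not split -/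
theorem unitT_towF (hs : ¬ Splt ℓ) {F : Type u} [Field F] [NumberField F]
    [Algebra F₀ F] (h : TowF F₀ Ψ ℓ F) :
    ∀ [Algebra K F] [IsScalarTower K F₀ F], UnitT ℓ F (ov F₀ Ψ) := by
  have hfl : Fact ℓ.Prime := ⟨hℓ⟩
  have h5 := five_le hℓ hB.good
  have hV : ∀ (F : Type u) [Field F] [NumberField F] [Algebra F₀ F] [Algebra K F]
      [IsScalarTower K F₀ F], TowF F₀ Ψ ℓ F → ValueProp g ℓ Om F := by
    intro F _ _ _ _ _ h
    exact value_mono hB.fg (valueProp_e2 hℓ h5 F (e2_towF hℓ hB.e2 h)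
      (MP_1a91b9_nuT3.S8.uq_of_unram ℓ hℓ F fun v hv => unr_towF hℓ hs hB.unr h v hv))
  induction h with
  | base F hb =>
    intro _ _
    exact (unitZY_base hℓ hB hb).1
  | step F F' hG hr hu ha h ih =>
    intro _ _
    obtain ⟨_, t1, t2⟩ := exists_alg F₀ F F'
    have hu' : ∀ v : HeightOneSpectrum (𝓞 F), Ram F' v → (ℓ : 𝓞 F) ∉ v.asIdeal :=
      fun v hv h1 => hs (hu v h1 hv)
    obtain ⟨x, -, hx1, hx2⟩ := CF.reciprocity F F' ℓ (by omega) hr fun v hv h3v =>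
      hu' v ((MP_1a91b9_nuG.ram_eq v).mpr hv) h3v
    have hx := MP_1a91b9_nuG.cfData_of hℓ hr x hx1 hx2
    have hf : HF g F (ovr F Ψ) := hB.hf.ovr
    have h6 := step_main hf hr x hx hB.gl hu' (fun v hv _ => ha v hv) (hV F h)
      (hV F' (TowF.step F F' hG hr hu ha h)) ih
    rw [ovr_ovr] at h6
    exact h6

/-- **The unit property above `ℓ` over the fields of the tower.** -/
theorem unitZY_towF {F : Type u} [Field F] [NumberField F] [Algebra F₀ F] [Algebra K F]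
    [IsScalarTower K F₀ F] (h : TowF F₀ Ψ ℓ F) : UnitZY ℓ F (ov F₀ Ψ) := by
  by_cases hs : Splt ℓ
  · obtain ⟨p, hp⟩ := exists_spl hℓ (by have := five_le hℓ hB.good; omega) hs
    exact unitZY_of_unitY hp.mul (unitY_towF hℓ hB hp h) (unitY_towF hℓ hB (spl_conj hp) h)
  · exact unitZY_of_unitT hℓ.ne_zero (unr_towF hℓ hs hB.unr h) (unitT_towF hℓ hB hs h)

theorem wok_towF {F : Type u} [Field F] [NumberField F] [Algebra F₀ F] [Algebra K F]
    [IsScalarTower K F₀ F] (h : TowF F₀ Ψ ℓ F) : WOk ℓ F := by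
  refine ⟨e2_towF hℓ hB.e2 h, ?_⟩
  by_cases hs : Splt ℓ
  · exact Or.inl (exists_spl hℓ (by have := five_le hℓ hB.good; omega) hs)
  · exact Or.inr (unr_towF hℓ hs hB.unr h)

theorem lgood_towF {F : Type u} [Field F] [NumberField F] [Algebra F₀ F] [Algebra K F]
    [IsScalarTower K F₀ F] (h : TowF F₀ Ψ ℓ F) : LGoodY F (ov F₀ Ψ) :=
  (unitZY_towF hℓ hB h).lgood hℓ

end

end Pool.Agent.Lib.MP_1a91b9_nuY.TX
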